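import Pool.Agent.H72.UZ.TarY
import Pool.Agent.H45.UZ.TarP

/-!
# MP_f6fd33_lc: targets, utilities for section 8
-/

set_option linter.unusedVariables false

open Ordinal Order Set
open scoped ZFSet

namespace SE.UZ

open SF

/-- ZR: the ordinals less than `κ` and the stages `ρ_ξ` -/
def T_ZR : Prop := ∀ (D : Cx) (κ : V) (b : BS), Amb D κ → b.Ok D κ →
  (∀ ξ ∈ κ, ∀ η ∈ ξ, η ∈ κ) ∧ (∀ ξ ∈ κ, ξ ∈ D.H ∧ D.N ξ ∧ insert ξ ξ ∈ κ) ∧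
  (∀ ξ ∈ κ, ∀ η ∈ κ, ξ ∈ η ∨ ξ = η ∨ η ∈ ξ) ∧
  (∀ ξ ∈ κ, ∀ η ∈ κ, (ξ ⊆ η ↔ ξ ∈ η ∨ ξ = η) ∧ (ξ ⊆ η ↔ ξ ∈ insert η η) ∧
    (insert ξ ξ ⊆ η ↔ ξ ∈ η) ∧ (ξ ∈ η → η ∉ ξ) ∧ (ξ ⊆ η ↔ b.rho D ξ ≤ b.rho D η) ∧
    (ξ ∈ η ↔ b.rho D ξ < b.rho D η) ∧ (ξ ∈ η ↔ succ (b.rho D ξ) ≤ b.rho D η)) ∧
  (∀ ξ ∈ κ, (∃ η ∈ ξ, ξ = insert η η) ∨ ∀ η ∈ ξ, insert η η ∈ ξ) ∧
  (∀ ξ ∈ κ, ξ ∉ ξ ∧ b.Ls D (b.Wd D) (b.rho D ξ) ∧ D.N (b.rho D ξ).toZFSet ∧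
    D.N (succ (b.rho D ξ)).toZFSet ∧ b.rho D ξ < b.rho D (insert ξ ξ) ∧
    (succ (b.cn D (b.Wd D) (b.rho D ξ))).toZFSet = insert ξ ξ) ∧
  (∀ ξ ∈ κ, ∀ e, b.Ls D (b.Wd D) e → e < b.rho D ξ → ∃ ζ ∈ ξ, e = b.rho D ζ) ∧
  ∀ ξ ∈ κ, ∀ e τ, b.Ls D (b.Wd D) e → e < b.rho D ξ →
    τ ∈ (succ (b.cn D (b.Wd D) e)).toZFSet → ∃ ζ ∈ ξ, e = b.rho D ζ ∧ τ ∈ insert ζ ζ

/-- ZW: worlds and generic filters on larger sets of labels -/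
def T_ZW : Prop := ∀ (D : Cx) (κ : V) (b : BS), Amb D κ → b.Ok D κ → ∀ σ B h,
  b.Wd D σ B h → (B ∈ b.Ob ∧ b.Obs B ∧ CS D (b.u B) ∧ b.u B ∈ D.H ∧ D.N (b.u B) ∧
    Tr (b.u B) ∧ Cld D.L (b.u B) ∧ D.N B ∧ D.N h ∧ His D (b.u B) h σ ∧
    ∀ j ∈ b.u B, b.Co j → vw j ⊆ b.u B ∧ D.N (vw j) ∧ Tr (vw j) ∧ lS j ⊆ vw j ∧ j ∉ vw j) ∧
  ∀ ρ, D.N ρ → Cld D.L ρ → b.u B ⊆ ρ → ∀ G, D.Gn ρ G →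
    D.Gn (b.u B) (gs G (b.u B)) ∧ (∀ x, RR D (b.u B) G x → RR D ρ G x) ∧
    (∀ X y e, Ent h G X y e → RR D (b.u B) G X ∧ RR D (b.u B) G y ∧ e < σ) ∧
    (∀ X y e, Ent h G X y e ↔ Ent h (gs G (b.u B)) X y e) ∧
    (∀ X, Dcc h G X ↔ Dcc h (gs G (b.u B)) X) ∧
    (∀ X y y' e e', Ent h G X y e → Ent h G X y' e' → y = y' ∧ e = e') ∧
    (∀ X, b.Pt B G X ↔ b.Pt B (gs G (b.u B)) X) ∧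
    (∀ X y, b.Kil D B G X y ↔ b.Kil D B (gs G (b.u B)) X y) ∧
    (∀ s, D.N s → s ⊆ b.u B → Tr s →
      (∀ x, RR D s G x ↔ RR D s (gs G (b.u B)) x) ∧ (∀ x, RR D s G x → RR D (b.u B) G x)) ∧
    (∀ j ∈ b.u B, ev (gs G (b.u B)) (lZ j) = ev G (lZ j) ∧ prm (gs G (b.u B)) j = prm G j) ∧
    (∀ j ∈ b.u B, b.Co j → ∀ X y, (Sn D G X y j ↔ Sn D (gs G (b.u B)) X y j) ∧
      (Sn D G X y j → RR D (b.u B) G X ∧ RR D (b.u B) G y) ∧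
      (∀ e, Ent h G X y e → ev G (lZ j) ≠ prl X y) ∧
      (∀ e, Ent h G X y e → b.Ls D (b.Wd D) e →
        tm j ∈ (succ (b.cn D (b.Wd D) e)).toZFSet → ¬ Sn D G X y j)) ∧
    (∀ X y e, Ent h G X y e → ¬ b.Kb D (b.Wd D) e B (hr h e) (gs G (b.u B)) X y ∧
      (b.Ls D (b.Wd D) e → ¬ b.Pt B G X)) ∧
    ∀ C ∈ b.Ob, b.u C ⊆ b.u B → ∀ X, RR D (b.u C) G X → (b.Pt B G X ↔ b.Pt C G X)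

/-- ZE: faces and generic filters on larger sets of labels -/
def T_ZE : Prop := ∀ (D : Cx) (κ : V) (b : BS), Amb D κ → b.Ok D κ → ∀ σ σ1 σ2 C h0 B h,
  His D (b.u C) h0 σ1 → His D (b.u B) h σ2 → b.LW D σ C h0 B h →
  (C ∈ b.Ob ∧ B ∈ b.Ob ∧ b.u C ⊆ b.u B ∧ D.N (b.u C) ∧ Tr (b.u C)) ∧
  ∀ ρ, D.N ρ → Cld D.L ρ → b.u B ⊆ ρ → ∀ G, D.Gn ρ G →
    (∀ x, RR D (b.u C) G x → RR D (b.u B) G x) ∧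
    gs (gs G (b.u B)) (b.u C) = gs G (b.u C) ∧ D.Gn (b.u C) (gs G (b.u C)) ∧
    (∀ X, RR D (b.u C) G X → ∀ y e, e < σ → (Ent h0 G X y e ↔ Ent h G X y e)) ∧
    (∀ X y e, Ent h0 G X y e → e < σ → Ent h G X y e) ∧
    (∀ X, RR D (b.u C) G X → ∀ y e, e < σ → Ent h G X y e → RR D (b.u C) G y) ∧
    (∀ X, Dcc h0 G X → σ1 ≤ σ → Dcc h G X) ∧
    (∀ X, RR D (b.u C) G X → Dcc h G X → σ2 ≤ σ → Dcc h0 G X) ∧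
    ∀ X y, b.Kil D C G X y → b.Kil D B G X y

/-- ZK: transport of secured and killed facts -/
def T_ZK : Prop := ∀ (D : Cx) (κ : V) (b : BS), Amb D κ → b.Ok D κ → ∀ B ∈ b.Ob, ∀ π ρ',
  Isl D b.l b.S π (b.u B) ρ' → ∀ G, D.Gn (b.u B) G →
    (∀ a x, b.Ss D B G a x ↔ b.Ss D (b.T π B) (gi D π ρ' G) a x) ∧
    (∀ X y, b.Kil D B G X y ↔ b.Kil D (b.T π B) (gi D π ρ' G) X y) ∧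
    ∀ j ∈ b.u B, b.Co j ↔ b.Co (app π j)

end SE.UZ
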