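import Pool.Agent.H38.UZ.TarZ
import Pool.Agent.H41.UZ.TN

/-! # MP_f6fd33_lc: row X4 (the family of parts) -/

set_option linter.unusedVariables false

open Ordinal Order Set
open scoped ZFSet

namespace SE.UZ

open SF
open _root_.UZ

namespace X4P

variable {D : Cx} {κ : V} {b : BS}

theorem sl (hB : b.Ok D κ) : Sl b.l b.S := fun k hk => ⟨(hB.sl k hk).1, by
  have := (hB.sl k hk).2
  omega⟩

/-- transport of the generic filter to the original of the copy -/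
theorem trp (hQI1 : T_QI1) (hQI2 : T_QI2) (hQI3 : T_QI3) (hBL : T_BL) (hBJ : T_BJ) (hBC : T_BC)
    (hA : Amb D κ) (hB : b.Ok D κ) {ξ q π p1 p2 : V} (hc : b.Cpw D ξ q π p1 p2)
    (hs : D.N (b.u (fst q))) (hs1 : b.u (fst q) ⊆ b.u (fst p1)) (hst : Tr (b.u (fst q)))
    (hs2 : b.u (fst q) ⊆ b.u (fst p2)) (hn1 : D.N (b.u (fst p1))) (ht1 : Tr (b.u (fst p1)))
    (hn2 : D.N (b.u (fst p2))) (ht2 : Tr (b.u (fst p2)))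
    {ρ G r1 : V} (hρ : D.N ρ) (hρc : Cld D.L ρ) (hsub : b.u (fst p2) ⊆ ρ) (hG : D.Gn ρ G)
    (hr1 : r1 ∈ D.P (b.u (fst p1))) (hr2 : mv π r1 ∈ G) :
    ∃ G1, D.Gn (b.u (fst p1)) G1 ∧ r1 ∈ G1 ∧ gs G1 (b.u (fst q)) = gs G (b.u (fst q)) ∧
      gi D π (b.u (fst p2)) G1 = gs G (b.u (fst p2)) := by
  have hD := hA.ok
  obtain ⟨⟨-, -, him, -, hii, -, hinv⟩, -, -, -, -⟩ := hQI1 D hD _ _ _ _ _ (sl hB) hc.i
  obtain ⟨-, hBL2⟩ := hBL D hD ρ G hρ hρc hG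
  obtain ⟨g1, -, -, g4, -, -, g7⟩ := hBL2 (b.u (fst p2)) hn2 hsub ht2
  obtain ⟨k1, -, k3, k4, -, -⟩ := hQI3 D hD _ _ _ _ _ (sl hB) hinv _ g1 _ rfl
  rw [hii] at k3
  obtain ⟨-, m2⟩ := hQI2 D hD _ _ _ _ _ (sl hB) hc.i (b.u (fst p1)) hn1 (fun _ h => h) ht1
  obtain ⟨m3, m4, -⟩ := m2 r1 hr1
  rw [him] at m3
  refine ⟨_, k1, ?_, ?_, k3⟩
  · have h1 := (k4 _ m3).2 ((g4 _).2 ⟨hr2, ?_⟩)
    · rwa [m4] at h1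
    · exact ((hBC.2.2.2.1 _ _ _).1 m3).2.1
  · obtain ⟨-, -, -, -, -, n6⟩ := hQI3 D hD _ _ _ _ _ (sl hB) hc.i _ k1 _ rfl
    obtain ⟨-, -, -, -, n7⟩ := n6 (b.u (fst q)) hs hs1 hst
    have h2 := (n7 hc.d).1
    rw [k3] at h2
    rw [← h2, g7 _ hs2]

/-- the properties of the copy -/
theorem fac (hQI1 : T_QI1) (hQI2 : T_QI2) (hQI3 : T_QI3) (hQRN : T_QRN) (hBL : T_BL)
    (hBJ : T_BJ) (hBC : T_BC) (hBK : T_BK) (hZR : T_ZR) (hZW : T_ZW) (hZK : T_ZK) (hLL : T_LL)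
    (hA : Amb D κ) (hB : b.Ok D κ) {ξ q π p1 p2 : V} (hξ : ξ ∈ κ) (hq : b.Wr D ξ q)
    (h1 : b.Wr D ξ p1) (hl1 : b.Lr D ξ q p1) (h2 : b.Wr D ξ p2) (hl2 : b.Lr D ξ q p2)
    (hc : b.Cpw D ξ q π p1 p2) {ρ G r1 : V} (hρ : D.N ρ) (hρc : Cld D.L ρ)
    (hsub : b.u (fst p2) ⊆ ρ) (hG : D.Gn ρ G) (hr1 : r1 ∈ D.P (b.u (fst p1)))
    (hr2 : mv π r1 ∈ G) : ∃ G1, D.Gn (b.u (fst p1)) G1 ∧ r1 ∈ G1 ∧
      (∀ x, RR D (b.u (fst p2)) G x ↔ RR D (b.u (fst p1)) G1 x) ∧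
      (∀ x, RR D (b.u (fst q)) G x ↔ RR D (b.u (fst q)) G1 x) ∧
      (∀ Y, D.N Y → Nam D.L (b.u (fst q)) Y → ev G1 Y = ev G Y) ∧
      (∀ j ∈ b.u (fst p2), b.Co j → ∃ j0 ∈ b.u (fst p1), b.Co j0 ∧
        ∀ X y, Sn D G X y j ↔ Sn D G1 X y j0) ∧
      (∀ j0 ∈ b.u (fst p1), b.Co j0 → app π j0 ∈ b.u (fst p2) ∧ b.Co (app π j0) ∧
        ev G (lZ (app π j0)) = ev G1 (lZ j0)) ∧
      (∀ X y e, Ent (snd q) G1 X y e ↔ Ent (snd q) G X y e) ∧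
      (∀ X y, b.Kb D (b.Wd D) (b.rho D ξ) (fst p1) (snd p1) G1 X y ↔
        b.Kb D (b.Wd D) (b.rho D ξ) (fst p2) (snd p2) (gs G (b.u (fst p2))) X y) ∧
      ∀ X y, b.Kil D (fst p1) G1 X y ↔ b.Kil D (fst p2) (gs G (b.u (fst p2))) X y := by
  have hD := hA.ok
  obtain ⟨⟨qO, qB, qC, qH, qN, qT, qL, -, -, qHi, qj⟩, qG⟩ := hZW D κ b hA hB _ _ _ hq.w
  obtain ⟨⟨aO, aB, aC, aH, aN, aT, aL, -, -, aHi, aj⟩, aG⟩ := hZW D κ b hA hB _ _ _ h1.w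
  obtain ⟨⟨cO, cB, cC, cH, cN, cT, cL, -, -, cHi, cj⟩, cG⟩ := hZW D κ b hA hB _ _ _ h2.w
  have s1 : b.u (fst q) ⊆ b.u (fst p1) := (hB.leO _ _ hl1.le).2.2
  have s2 : b.u (fst q) ⊆ b.u (fst p2) := (hB.leO _ _ hl2.le).2.2
  obtain ⟨G1, g1, g2, g3, g4⟩ := trp hQI1 hQI2 hQI3 hBL hBJ hBC hA hB hc qN s1 qT s2 aN aT cN cT
    hρ hρc hsub hG hr1 hr2
  obtain ⟨c1, c2, c3, c4, c5, c6, c7, c8, c9, c10, c11, c12, c13⟩ := cG ρ hρ hρc hsub G hG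
  obtain ⟨⟨-, -, him, -, -, -, -⟩, v2, v3, -, -⟩ := hQI1 D hD _ _ _ _ _ (sl hB) hc.i
  obtain ⟨-, k2, -, -, k5, k6⟩ := hQI3 D hD _ _ _ _ _ (sl hB) hc.i _ g1 _ rfl
  rw [g4] at k2 k5 k6
  obtain ⟨z1, z2, z3⟩ := hZK D κ b hA hB _ aO _ _ hc.i G1 g1
  have e1 : fst p2 = b.T π (fst p1) := by rw [hc.e, fst_pair]
  have e2 : snd p2 = mvh π (snd p1) := by rw [hc.e, snd_pair]
  obtain ⟨m1, -⟩ := hBL D hD _ _ aN aL g1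
  have rs : ∀ x, RR D (b.u (fst q)) G x ↔ RR D (b.u (fst q)) G1 x := fun x => by
    unfold RR
    rw [g3]
  refine ⟨G1, g1, g2, ?_, rs, ?_, ?_, ?_, ?_, ?_, ?_⟩
  · intro x
    rw [((c9 (b.u (fst p2)) cN (fun _ h => h) cT).1 x)]
    have := (k6 (b.u (fst p1)) aN (fun _ h => h) aT).2.2.1 x
    rw [him] at this
    exact this
  · intro Y hY hnY
    have e3 := ((hBK D hD _ _ aN aL g1).1 (b.u (fst q)) Y qN s1 qT hY hnY).2.2.2.2.2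
      (b.u (fst q)) (fun _ h => h)
    have e4 := ((hBK D hD _ _ hρ hρc hG).1 (b.u (fst q)) Y qN (fun _ h => hsub (s2 h)) qT hY
      hnY).2.2.2.2.2 (b.u (fst q)) (fun _ h => h)
    rw [← e3, ← e4, g3]
  · intro j hj hcj
    obtain ⟨w1, w2⟩ := v3 j hj
    refine ⟨_, w1, ?_, ?_⟩
    · rw [(z3 _ w1), w2]
      exact hcj
    · intro X y
      have hcj0 : b.Co (app (inv π) j) := by
        rw [(z3 _ w1), w2]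
        exact hcj
      obtain ⟨j1, j2, j3, -, -⟩ := aj _ w1 hcj0
      have h5 := (hc.c _ w1 hcj0).1
      rw [w2] at h5
      have h6 := (k6 _ j2 j1 j3).2.2.1
      rw [(c11 j hj hcj X y).1]
      unfold Sn
      rw [h5, h6, h6]
  · intro j0 hj0 hcj0
    have h5 := (v2 j0 hj0).1
    have h6 : b.Co (app π j0) := (z3 _ hj0).1 hcj0
    refine ⟨h5, h6, ?_⟩
    rw [← (c10 _ h5).1]
    exact (k5 j0 hj0).2.1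
  · intro X y e
    rw [((qG _ aN aL s1 _ g1).2.2.2.1 X y e), g3,
      ← ((qG _ hρ hρc (fun _ h => hsub (s2 h)) _ hG).2.2.2.1 X y e)]
  · intro X y
    have hctx : Ctx D κ b (b.rho D ξ) := ⟨hA, hB, ((hZR D κ b hA hB).2.2.2.2.2.1 ξ hξ).2.2.1⟩
    have hSI : b.SI D (b.rho D ξ) π (fst p1) (b.u (fst p2)) := ⟨hc.i, aB, hc.c⟩
    have hw2 := h2.w
    rw [e1, e2] at hw2
    have := ((hLL D κ b _ hctx).1.t π (fst p1) _ (snd p1) h1.w hSI hw2 G1 g1 X).1 y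
    rw [g4] at this
    rw [this, e1, e2]
  · intro X y
    have := z2 X y
    rw [g4] at this
    rw [this, ← e1]

/-- tagged sets of pairs -/
noncomputable def tg1 (n E : V) : V := imS E fun z => ZFSet.pair (ZFSet.pair n (fst z)) (snd z)

theorem mem_tg1 {n E m a c : V} (h : ∀ z ∈ E, z = ZFSet.pair (fst z) (snd z)) :
    ZFSet.pair (ZFSet.pair m a) c ∈ tg1 n E ↔ m = n ∧ ZFSet.pair a c ∈ E := by
  unfold tg1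
  rw [mem_imS]
  constructor
  · rintro ⟨z, hz, he⟩
    obtain ⟨e1, e2⟩ := ZFSet.pair_injective he
    obtain ⟨e3, e4⟩ := ZFSet.pair_injective e1
    have := h z hz
    rw [e4, e2] at this
    exact ⟨e3.symm, this ▸ hz⟩
  · rintro ⟨rfl, hz⟩
    exact ⟨_, hz, by rw [fst_pair, snd_pair]⟩

theorem tg1_N {N : V → Prop} (hN : ZFm N) {n E : V} (hn : N n) (hE : N E) : N (tg1 n E) := by
  have h : TN N (fun _ => tg1 n E) := by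
    unfold tg1
    exact TN.image hN (TN.cst hE) (TN.pair hN (TN.pair hN (TN.cst hn) (TN.fst hN (TN.var hN 0)))
      (TN.snd hN (TN.var hN 0)))
  exact TN.mem hN h (u := fun _ => n) fun _ => hn

/-- (i) -/
theorem pi (hLU : T_LU) (hPDE : T_PDE) (hPDB : T_PDB) (hQI1 : T_QI1)
    (hQI2 : T_QI2) (hQI3 : T_QI3) (hQRN : T_QRN) (hBL : T_BL) (hBJ : T_BJ) (hBC : T_BC)
    (hBK : T_BK) (hBO : T_BO) (hZR : T_ZR) (hZW : T_ZW) (hZE : T_ZE) (hZK : T_ZK) (hLL : T_LL)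
    (hA : Amb D κ) (hB : b.Ok D κ) {ξ q : V} (hξ : ξ ∈ κ) (hq : b.Wr D ξ q)
    {I1 F1 E1 : V} (hE1 : ∀ z, z ∈ E1 ↔ b.E1 D ξ q z) (hpr : ∀ u ∈ I1, b.Wr D ξ (app F1 u) ∧
      b.Lr D ξ q (app F1 u)) {ρ G : V} (hρ : D.N ρ) (hρc : Cld D.L ρ)
    (hsu : ∀ u ∈ I1, b.u (fst (app F1 u)) ⊆ ρ) (hsq : b.u (fst q) ⊆ ρ) (hG : D.Gn ρ G)
    (hx1 : ∀ t p' r, ZFSet.pair t (ZFSet.pair p' r) ∈ E1 → rst (b.u (fst q)) r ∈ G →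
      ∃ p1 r1, ZFSet.pair t (ZFSet.pair p1 r1) ∈ E1 ∧
          ∃ u ∈ I1, ∃ π, b.Cpw D ξ q π p1 (app F1 u) ∧ mv π r1 ∈ G)
    (X : V) (hX : RR D (b.u (fst q)) G X) (hd : ¬ Dcc (snd q) G X)
    (hn : b.Nn D (b.Wd D) (b.rho D ξ) (fst q) (snd q) (gs G (b.u (fst q))) X) :
    ∃ u ∈ I1, ∃ y, RR D (b.u (fst (app F1 u))) G y ∧ ¬ RR D (b.u (fst q)) G y ∧
      ¬ b.Kb D (b.Wd D) (b.rho D ξ) (fst (app F1 u)) (snd (app F1 u))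
        (gs G (b.u (fst (app F1 u)))) X y ∧
      ∀ j ∈ b.u (fst (app F1 u)), b.Co j → ¬ Sn D G X y j := by
  have hD := hA.ok
  obtain ⟨-, hrho, -⟩ := (hZR D κ b hA hB).2.2.2.2.2
  have hrh := (hZR D κ b hA hB).2.2.2.2.2.1 ξ hξ
  have hctx : Ctx D κ b (b.rho D ξ) := ⟨hA, hB, hrh.2.2.1⟩
  obtain ⟨⟨qO, qB, qC, qH, qN, qT, qL, -, -, qHi, qj⟩, qG⟩ := hZW D κ b hA hB _ _ _ hq.w
  obtain ⟨c1, c2, c3, c4, c5, c6, c7, c8, c9, c10, c11, c12, c13⟩ := qG ρ hρ hρc hsq G hG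
  obtain ⟨r1, r2, -⟩ := hQRN D hD ρ G (b.u (fst q)) hρ hρc hG qN hsq qT
  obtain ⟨Xn, nX, mX, eX⟩ := (r1 X).1 hX
  obtain ⟨B', h', G', y, hE, hy, hny, hk, hsn⟩ := hLU D κ b _ hctx hrh.2.1 _ _ hq.w _ c1 X
    ((r2 X).1 hX) (fun h => hd ((c5 X).2 h)) hn
  obtain ⟨⟨aO, aB, aC, aH, aN, aT, aL, -, -, aHi, aj⟩, aG⟩ := hZW D κ b hA hB _ _ _ hE.w
  have sqa : b.u (fst q) ⊆ b.u B' := (hB.leO _ _ hE.le.le).2.2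
  obtain ⟨s1, -⟩ := hQRN D hD (b.u B') G' (b.u B') aN aL hE.g aN (fun _ h => h) aT
  obtain ⟨Yn, nY, mY, eY⟩ := (s1 y).1 hy
  obtain ⟨Xa, nXa, mXa, eXa⟩ := (hBO D hD (b.u B') aN aL).2.2.2.2.2 (b.u (fst q)) Xn qN sqa qT
    nX mX
  have eXG : ev G' Xa = X := by
    rw [eXa G' hE.g, ← ((hBK D hD _ _ aN aL hE.g).1 (b.u (fst q)) Xn qN sqa qT nX mX).2.2.2.2.2
      (b.u (fst q)) (fun _ h => h), hE.r,
      ((hBK D hD _ _ hρ hρc hG).1 (b.u (fst q)) Xn qN hsq qT nX mX).2.2.2.2.2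
      (b.u (fst q)) (fun _ h => h), eX]
  have d1 := (hPDE D κ hA b hB _ hrh.2.2.1 B' aO h' _ aHi Yn Yn nY nY mY mY).2.2.2.2.2.2.2.2.2.2.1
    (b.u (fst q)) qN sqa qT
  have d2 := (hPDE D κ hA b hB _ hrh.2.2.1 B' aO h' _ aHi Xa Yn nXa nY mXa mY).2.2.2.2.2.1
  have d3 := (hPDE D κ hA b hB _ hrh.2.2.1 B' aO h' _ aHi Xa Yn nXa nY mXa
    mY).2.2.2.2.2.2.2.2.2.2.2 aB
  have n1 := (hPDB D hD _ aN aL _ d1).1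
  have n2 := (hPDB D hD _ aN aL _ d2).1
  have n3 := (hPDB D hD _ aN aL _ d3).1
  have n4 := (hPDB D hD _ aN aL _ n1).2.1 _ ((hPDB D hD _ aN aL _ n2).2.1 _ n3)
  obtain ⟨p, hp, hpP, hpf⟩ := (hPDB D hD _ aN aL _ n4).2.2.2.1 G' hE.g ⟨by rwa [eY], by
    rwa [eY, eXG], by
    rintro ⟨j, hj, hcj, hs⟩
    rw [eY, eXG] at hs
    exact hsn j hj hcj hs⟩
  have hm : ZFSet.pair Xn (ZFSet.pair (ZFSet.pair B' h') p) ∈ E1 := by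
    rw [hE1]
    refine ⟨Xn, ZFSet.pair B' h', p, ⟨nX, mX⟩, ⟨by rw [fst_pair, snd_pair], by
      rw [fst_pair, snd_pair]
      exact hE.w⟩, ?_, by rwa [fst_pair], rfl, Yn, ?_, ?_⟩
    · unfold BS.Lr
      rw [fst_pair, snd_pair]
      exact hE.le
    · rw [fst_pair]
      exact ⟨nY, mY⟩
    · rw [fst_pair, snd_pair]
      intro G'' hG'' hpG
      obtain ⟨f1, f2, f3⟩ := hpf G'' hG'' hpG
      rw [eXa G'' hG''] at f2 f3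
      exact ⟨f1, f2, fun j hj hcj hs => f3 ⟨j, hj, hcj, hs⟩⟩
  have hrs : rst (b.u (fst q)) p ∈ G := by
    have h1 := (((hBL D hD _ _ aN aL hE.g).2 (b.u (fst q)) qN sqa qT).2.2.2.2.1 p hp)
    rw [hE.r] at h1
    exact ((hBL D hD _ _ hρ hρc hG).2 (b.u (fst q)) qN hsq qT).2.1 h1
  obtain ⟨p1, r1', hm1, u, hu, π, hc, hmv⟩ := hx1 _ _ _ hm hrs
  rw [hE1] at hm1
  obtain ⟨X1, p1', r1'', hX1', hw1, hl1, hr1, he, Y1, hY1, hf1⟩ := hm1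
  obtain ⟨e1, e2⟩ := ZFSet.pair_injective he
  obtain ⟨e3, e4⟩ := ZFSet.pair_injective e2
  subst e1 e3 e4
  obtain ⟨w2, l2⟩ := hpr u hu
  obtain ⟨G1, g1, g2, g3, g4, g5, g6, -, -, g8, -⟩ := fac hQI1 hQI2 hQI3 hQRN hBL hBJ hBC hBK hZR
    hZW hZK hLL hA hB hξ hq hw1 hl1 w2 l2 hc hρ hρc (hsu u hu) hG hr1 hmv
  obtain ⟨f1, f2, f3⟩ := hf1 G1 g1 g2
  rw [g5 _ nX mX, eX] at f2 f3
  obtain ⟨⟨bO, bB, bC, bH, bN, bT, bL, -, -, bHi, bj⟩, -⟩ := hZW D κ b hA hB _ _ _ hw1.w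
  obtain ⟨t1, -⟩ := hQRN D hD _ G1 (b.u (fst p1)) bN bL g1 bN (fun _ h => h) bT
  refine ⟨u, hu, ev G1 Y1, ?_, ?_, ?_, ?_⟩
  · rw [g3]
    exact (t1 _).2 ⟨Y1, hY1.1, hY1.2, rfl⟩
  · rwa [g4]
  · rwa [← g8]
  · intro j hj hcj hs
    obtain ⟨j0, hj0, hc0, h5⟩ := g6 j hj hcj
    exact f3 j0 hj0 hc0 ((h5 _ _).1 hs)

/-- (ii) -/
theorem pii (hPDE : T_PDE) (hPDB : T_PDB) (hQI1 : T_QI1)
    (hQI2 : T_QI2) (hQI3 : T_QI3) (hQRN : T_QRN) (hBL : T_BL) (hBJ : T_BJ) (hBC : T_BC)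
    (hBK : T_BK) (hBO : T_BO) (hZR : T_ZR) (hZW : T_ZW) (hZK : T_ZK) (hLL : T_LL)
    (hA : Amb D κ) (hB : b.Ok D κ) {ξ q : V} (hξ : ξ ∈ κ) (hq : b.Wr D ξ q)
    {I1 F1 E2 : V} (hE2 : ∀ z, z ∈ E2 ↔ b.E2 D ξ q z) (hpr : ∀ u ∈ I1, b.Wr D ξ (app F1 u) ∧
      b.Lr D ξ q (app F1 u)) {ρ G : V} (hρ : D.N ρ) (hρc : Cld D.L ρ)
    (hsu : ∀ u ∈ I1, b.u (fst (app F1 u)) ⊆ ρ) (hsq : b.u (fst q) ⊆ ρ) (hG : D.Gn ρ G)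
    (hx1 : ∀ t p' r, ZFSet.pair t (ZFSet.pair p' r) ∈ E2 → rst (b.u (fst q)) r ∈ G →
      ∃ p1 r1, ZFSet.pair t (ZFSet.pair p1 r1) ∈ E2 ∧
          ∃ u ∈ I1, ∃ π, b.Cpw D ξ q π p1 (app F1 u) ∧ mv π r1 ∈ G)
    (X y : V) (hX : RR D (b.u (fst q)) G X) (hy : RR D (b.u (fst q)) G y)
    (hn : b.Kb D (b.Wd D) (b.rho D ξ) (fst q) (snd q) (gs G (b.u (fst q))) X y) :
    ∃ u ∈ I1, b.Kil D (fst (app F1 u)) (gs G (b.u (fst (app F1 u)))) X y := by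
  have hD := hA.ok
  have hrh := (hZR D κ b hA hB).2.2.2.2.2.1 ξ hξ
  obtain ⟨⟨qO, qB, qC, qH, qN, qT, qL, -, -, qHi, qj⟩, qG⟩ := hZW D κ b hA hB _ _ _ hq.w
  obtain ⟨r1, r2, -⟩ := hQRN D hD ρ G (b.u (fst q)) hρ hρc hG qN hsq qT
  obtain ⟨Xn, nX, mX, eX⟩ := (r1 X).1 hX
  obtain ⟨Yn, nY, mY, eY⟩ := (r1 y).1 hy
  obtain ⟨B', h', G', hE, hk⟩ := hn
  obtain ⟨⟨aO, aB, aC, aH, aN, aT, aL, -, -, aHi, aj⟩, aG⟩ := hZW D κ b hA hB _ _ _ hE.w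
  have sqa : b.u (fst q) ⊆ b.u B' := (hB.leO _ _ hE.le.le).2.2
  obtain ⟨Xa, nXa, mXa, eXa⟩ := (hBO D hD (b.u B') aN aL).2.2.2.2.2 (b.u (fst q)) Xn qN sqa qT
    nX mX
  obtain ⟨Ya, nYa, mYa, eYa⟩ := (hBO D hD (b.u B') aN aL).2.2.2.2.2 (b.u (fst q)) Yn qN sqa qT
    nY mY
  have eXG : ev G' Xa = X := by
    rw [eXa G' hE.g, ← ((hBK D hD _ _ aN aL hE.g).1 (b.u (fst q)) Xn qN sqa qT nX mX).2.2.2.2.2
      (b.u (fst q)) (fun _ h => h), hE.r,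
      ((hBK D hD _ _ hρ hρc hG).1 (b.u (fst q)) Xn qN hsq qT nX mX).2.2.2.2.2
      (b.u (fst q)) (fun _ h => h), eX]
  have eYG : ev G' Ya = y := by
    rw [eYa G' hE.g, ← ((hBK D hD _ _ aN aL hE.g).1 (b.u (fst q)) Yn qN sqa qT nY mY).2.2.2.2.2
      (b.u (fst q)) (fun _ h => h), hE.r,
      ((hBK D hD _ _ hρ hρc hG).1 (b.u (fst q)) Yn qN hsq qT nY mY).2.2.2.2.2
      (b.u (fst q)) (fun _ h => h), eY]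
  have d2 := (hPDE D κ hA b hB _ hrh.2.2.1 B' aO h' _ aHi Xa Ya nXa nYa mXa mYa).2.2.2.2.1
  obtain ⟨p, hp, hpP, hpf⟩ := (hPDB D hD _ aN aL _ d2).2.2.2.1 G' hE.g (by rwa [eXG, eYG])
  have hm : ZFSet.pair (ZFSet.pair Xn Yn) (ZFSet.pair (ZFSet.pair B' h') p) ∈ E2 := by
    rw [hE2]
    refine ⟨Xn, Yn, ZFSet.pair B' h', p, ⟨nX, mX⟩, ⟨nY, mY⟩, ⟨by rw [fst_pair, snd_pair], by
      rw [fst_pair, snd_pair]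
      exact hE.w⟩, ?_, by rwa [fst_pair], rfl, ?_⟩
    · unfold BS.Lr
      rw [fst_pair, snd_pair]
      exact hE.le
    · rw [fst_pair]
      intro G'' hG'' hpG
      have f1 := hpf G'' hG'' hpG
      rwa [eXa G'' hG'', eYa G'' hG''] at f1
  have hrs : rst (b.u (fst q)) p ∈ G := by
    have h1 := (((hBL D hD _ _ aN aL hE.g).2 (b.u (fst q)) qN sqa qT).2.2.2.2.1 p hp)
    rw [hE.r] at h1
    exact ((hBL D hD _ _ hρ hρc hG).2 (b.u (fst q)) qN hsq qT).2.1 h1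
  obtain ⟨p1, r1', hm1, u, hu, π, hc, hmv⟩ := hx1 _ _ _ hm hrs
  rw [hE2] at hm1
  obtain ⟨X1, Y1, p1', r1'', hX1', hY1', hw1, hl1, hr1, he, hf1⟩ := hm1
  obtain ⟨e1, e2⟩ := ZFSet.pair_injective he
  obtain ⟨e3, e4⟩ := ZFSet.pair_injective e2
  obtain ⟨e5, e6⟩ := ZFSet.pair_injective e1
  subst e5 e6 e3 e4
  obtain ⟨w2, l2⟩ := hpr u hu
  obtain ⟨G1, g1, g2, g3, g4, g5, -, -, -, -, g9⟩ := fac hQI1 hQI2 hQI3 hQRN hBL hBJ hBC hBK hZR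
    hZW hZK hLL hA hB hξ hq hw1 hl1 w2 l2 hc hρ hρc (hsu u hu) hG hr1 hmv
  have f1 := hf1 G1 g1 g2
  rw [g5 _ nX mX, g5 _ nY mY, eX, eY, g9] at f1
  exact ⟨u, hu, f1⟩

/-- (v) -/
theorem pv (hX3 : T_X3) (hBD : T_BD) (hQI1 : T_QI1) (hQI2 : T_QI2) (hQI3 : T_QI3) (hQRN : T_QRN)
    (hBL : T_BL) (hBJ : T_BJ) (hBC : T_BC) (hBK : T_BK) (hBO : T_BO) (hZR : T_ZR) (hZW : T_ZW)
    (hZK : T_ZK) (hLL : T_LL)
    (hA : Amb D κ) (hB : b.Ok D κ) {ξ q : V} (hξ : ξ ∈ κ) (hq : b.Wr D ξ q)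
    (hqt : ∀ j ∈ b.u (fst q), b.Co j → tm j ∈ ξ)
    {I1 F1 E3 : V} (hE3 : ∀ z, z ∈ E3 ↔ b.E3 D ξ q z) (hpr : ∀ u ∈ I1, b.Wr D ξ (app F1 u) ∧
      b.Lr D ξ q (app F1 u)) {ρ G : V} (hρ : D.N ρ) (hρc : Cld D.L ρ)
    (hsu : ∀ u ∈ I1, b.u (fst (app F1 u)) ⊆ ρ) (hsq : b.u (fst q) ⊆ ρ) (hG : D.Gn ρ G)
    (hx1 : ∀ t p' r, ZFSet.pair t (ZFSet.pair p' r) ∈ E3 → rst (b.u (fst q)) r ∈ G →
      ∃ p1 r1, ZFSet.pair t (ZFSet.pair p1 r1) ∈ E3 ∧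
          ∃ u ∈ I1, ∃ π, b.Cpw D ξ q π p1 (app F1 u) ∧ mv π r1 ∈ G)
    (X y : V) (hX : RR D (b.u (fst q)) G X) (hy : RR D (b.u (fst q)) G y)
    (hn : ¬ ∃ e, Ent (snd q) G X y e) :
    ∃ u ∈ I1, ∃ j ∈ b.u (fst (app F1 u)), b.Co j ∧ ev G (lZ j) = prl X y := by
  have hD := hA.ok
  obtain ⟨⟨qO, qB, qC, qH, qN, qT, qL, -, -, qHi, qj⟩, qG⟩ := hZW D κ b hA hB _ _ _ hq.w
  obtain ⟨r1, r2, -⟩ := hQRN D hD ρ G (b.u (fst q)) hρ hρc hG qN hsq qT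
  obtain ⟨Xn, nX, mX, eX⟩ := (r1 X).1 hX
  obtain ⟨Yn, nY, mY, eY⟩ := (r1 y).1 hy
  obtain ⟨p', hp'⟩ := hX3 D κ b hA hB ξ hξ q hq hqt Xn Yn ⟨nX, mX⟩ ⟨nY, mY⟩
  obtain ⟨-, h0, -⟩ := (hBJ D hD).2.2.2.2 ρ hρ hρc |>.2 G hG |>.2.1
  have hre : rst (b.u (fst q)) ∅ ∈ G := by
    have : rst (b.u (fst q)) ∅ = ∅ := by
      ext z
      simp [rst]
    rwa [this]
  obtain ⟨p1, r1', hm1, u, hu, π, hc, hmv⟩ := hx1 _ _ _ ((hE3 _).2 hp') hre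
  rw [hE3] at hm1
  obtain ⟨X1, Y1, p1', hX1', hY1', hw1, hl1, he, j1, hj1, hcj1, hf1⟩ := hm1
  obtain ⟨e1, e2⟩ := ZFSet.pair_injective he
  obtain ⟨e3, e4⟩ := ZFSet.pair_injective e2
  obtain ⟨e5, e6⟩ := ZFSet.pair_injective e1
  subst e5 e6 e3
  obtain ⟨w2, l2⟩ := hpr u hu
  obtain ⟨G1, g1, g2, g3, g4, g5, -, g7, g8, -, -⟩ := fac hQI1 hQI2 hQI3 hQRN hBL hBJ hBC hBK hZR
    hZW hZK hLL hA hB hξ hq hw1 hl1 w2 l2 hc hρ hρc (hsu u hu) hG (r1 := r1') (by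
      rw [e4]
      exact hBD.1 _ _) hmv
  have f1 := hf1 G1 g1
  rw [g5 _ nX mX, g5 _ nY mY, eX, eY] at f1
  obtain ⟨k1, k2, k3⟩ := g7 j1 hj1 hcj1
  refine ⟨u, hu, _, k1, k2, ?_⟩
  rw [k3]
  exact f1 fun ⟨e, he⟩ => hn ⟨e, (g8 _ _ _).1 he⟩

end X4P

open X4P in
theorem pf_X4 (hX1 : T_X1) (hX2 : T_X2) (hX3 : T_X3) (hLU : T_LU) (hPDE : T_PDE)
    (hPDB : T_PDB) (hQI1 : T_QI1) (hQI2 : T_QI2) (hQI3 : T_QI3) (hQRN : T_QRN) (hBL : T_BL)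
    (hBJ : T_BJ) (hBC : T_BC) (hBD : T_BD) (hBK : T_BK) (hBO : T_BO) (hZR : T_ZR)
    (hZW : T_ZW) (hZE : T_ZE) (hZK : T_ZK) (hLL : T_LL) : T_X4 := by
  intro D κ b hA hB ξ hξ q hq hqt Z hZ
  have hD := hA.ok
  have hN : ZFm D.N := hD.zfc.toZFCm.toZFm
  have hH : ZFm (· ∈ D.H) := hD.zfH
  obtain ⟨⟨qO, qB, qC, qH, qN, qT, qL, -, -, qHi, qj⟩, qG⟩ := hZW D κ b hA hB _ _ _ hq.w
  obtain ⟨⟨E1, nE1, hE1⟩, ⟨E2, nE2, hE2⟩, E3, nE3, hE3⟩ := hX2 D κ b hA hB ξ hξ q hq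
  obtain ⟨S, hS, hSm⟩ := hA.nam _ qH qL
  have pr1 : ∀ z ∈ E1, z = ZFSet.pair (fst z) (snd z) := fun z hz => by
    obtain ⟨X, p', r, -, -, -, -, rfl, -⟩ := (hE1 z).1 hz
    rw [fst_pair, snd_pair]
  have pr2 : ∀ z ∈ E2, z = ZFSet.pair (fst z) (snd z) := fun z hz => by
    obtain ⟨X, Y, p', r, -, -, -, -, -, rfl, -⟩ := (hE2 z).1 hz
    rw [fst_pair, snd_pair]
  have pr3 : ∀ z ∈ E3, z = ZFSet.pair (fst z) (snd z) := fun z hz => by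
    obtain ⟨X, Y, p', -, -, -, -, rfl, -⟩ := (hE3 z).1 hz
    rw [fst_pair, snd_pair]
  have n01 : nS 0 ≠ nS 1 := fun h => absurd (nS_inj.1 h) (by norm_num)
  have n02 : nS 0 ≠ nS 2 := fun h => absurd (nS_inj.1 h) (by norm_num)
  have n12 : nS 1 ≠ nS 2 := fun h => absurd (nS_inj.1 h) (by norm_num)
  have hom : ∀ n, D.N (nS n) := fun n => hN.trans _ hN.inf _ (mem_om.2 ⟨n, rfl⟩)
  set E : V := tg1 (nS 0) E1 ∪ (tg1 (nS 1) E2 ∪ tg1 (nS 2) E3) with hE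
  set J : V := ZFSet.prod {nS 0} S ∪ (ZFSet.prod {nS 1} (ZFSet.prod S S) ∪
    ZFSet.prod {nS 2} (ZFSet.prod S S)) with hJ
  have hJH : J ∈ D.H := by
    have h : TN (· ∈ D.H) (fun _ => J) := by
      rw [hJ]
      exact TN.union hH (TN.prod hH (TN.sing hH (TN.nS hH 0)) (TN.cst hS))
        (TN.union hH (TN.prod hH (TN.sing hH (TN.nS hH 1)) (TN.prod hH (TN.cst hS) (TN.cst hS)))
          (TN.prod hH (TN.sing hH (TN.nS hH 2)) (TN.prod hH (TN.cst hS) (TN.cst hS))))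
    exact TN.mem hH h (u := fun _ => S) fun _ => hS
  have hEN : D.N E := by
    have h : TN D.N (fun _ => E) := by
      rw [hE]
      exact TN.union hN (TN.cst (tg1_N hN (hom 0) nE1))
        (TN.union hN (TN.cst (tg1_N hN (hom 1) nE2)) (TN.cst (tg1_N hN (hom 2) nE3)))
    exact TN.mem hN h (u := fun _ => E1) fun _ => nE1
  have m0 : ∀ a c, ZFSet.pair (ZFSet.pair (nS 0) a) c ∈ E ↔ ZFSet.pair a c ∈ E1 := fun a c => by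
    rw [hE, ZFSet.mem_union, ZFSet.mem_union, mem_tg1 pr1, mem_tg1 pr2, mem_tg1 pr3]
    simp [n01, n02]
  have m1 : ∀ a c, ZFSet.pair (ZFSet.pair (nS 1) a) c ∈ E ↔ ZFSet.pair a c ∈ E2 := fun a c => by
    rw [hE, ZFSet.mem_union, ZFSet.mem_union, mem_tg1 pr1, mem_tg1 pr2, mem_tg1 pr3]
    simp [n01.symm, n12]
  have m2 : ∀ a c, ZFSet.pair (ZFSet.pair (nS 2) a) c ∈ E ↔ ZFSet.pair a c ∈ E3 := fun a c => by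
    rw [hE, ZFSet.mem_union, ZFSet.mem_union, mem_tg1 pr1, mem_tg1 pr2, mem_tg1 pr3]
    simp [n02.symm, n12.symm]
  have hT : b.Tsk D ξ q J E := by
    refine ⟨hJH, hEN, fun z hz => ?_⟩
    rw [hE, ZFSet.mem_union, ZFSet.mem_union] at hz
    rcases hz with hz | hz | hz
    · obtain ⟨w, hw, rfl⟩ := mem_imS.1 hz
      obtain ⟨X, p', r, hX, hw1, hl1, hr, rfl, -⟩ := (hE1 w).1 hw
      rw [fst_pair, snd_pair]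
      refine ⟨ZFSet.pair (nS 0) X, ?_, p', r, rfl, hw1, hl1, hr⟩
      rw [hJ, ZFSet.mem_union]
      exact Or.inl (ZFSet.pair_mem_prod.2 ⟨ZFSet.mem_singleton.2 rfl, (hSm X).2 hX⟩)
    · obtain ⟨w, hw, rfl⟩ := mem_imS.1 hz
      obtain ⟨X, Y, p', r, hX, hY, hw1, hl1, hr, rfl, -⟩ := (hE2 w).1 hw
      rw [fst_pair, snd_pair]
      refine ⟨ZFSet.pair (nS 1) (ZFSet.pair X Y), ?_, p', r, rfl, hw1, hl1, hr⟩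
      rw [hJ, ZFSet.mem_union, ZFSet.mem_union]
      exact Or.inr (Or.inl (ZFSet.pair_mem_prod.2 ⟨ZFSet.mem_singleton.2 rfl,
        ZFSet.pair_mem_prod.2 ⟨(hSm X).2 hX, (hSm Y).2 hY⟩⟩))
    · obtain ⟨w, hw, rfl⟩ := mem_imS.1 hz
      obtain ⟨X, Y, p', hX, hY, hw1, hl1, rfl, -⟩ := (hE3 w).1 hw
      rw [fst_pair, snd_pair]
      refine ⟨ZFSet.pair (nS 2) (ZFSet.pair X Y), ?_, p', ∅, rfl, hw1, hl1, hBD.1 _ _⟩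
      rw [hJ, ZFSet.mem_union, ZFSet.mem_union]
      exact Or.inr (Or.inr (ZFSet.pair_mem_prod.2 ⟨ZFSet.mem_singleton.2 rfl,
        ZFSet.pair_mem_prod.2 ⟨(hSm X).2 hX, (hSm Y).2 hY⟩⟩))
  obtain ⟨I1, F1, hI1, hF1, hp, hdis, hgen⟩ := hX1 D κ b hA hB ξ hξ q hq (fun j hj hc =>
    ZFSet.mem_insert_iff.2 (Or.inr (hqt j hj hc))) J E hT Z hZ
  refine ⟨I1, F1, hI1, hF1, hp, hdis, fun ρ hρ hρc hsu hsq G hG => ?_⟩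
  have hg := hgen ρ hρ hρc hsu hsq G hG
  have hpr : ∀ u ∈ I1, b.Wr D ξ (app F1 u) ∧ b.Lr D ξ q (app F1 u) := fun u hu =>
    ⟨(hp u hu).w, (hp u hu).le⟩
  refine ⟨?_, ?_, ?_⟩
  · refine pi hLU hPDE hPDB hQI1 hQI2 hQI3 hQRN hBL hBJ hBC hBK hBO hZR hZW hZE hZK hLL hA hB hξ
      hq hE1 hpr hρ hρc hsu hsq hG fun t p' r ht hr => ?_
    obtain ⟨p1, r1, h1, h2⟩ := hg _ p' r ((m0 _ _).2 ht) hr
    exact ⟨p1, r1, (m0 _ _).1 h1, h2⟩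
  · refine pii hPDE hPDB hQI1 hQI2 hQI3 hQRN hBL hBJ hBC hBK hBO hZR hZW hZK hLL hA hB hξ
      hq hE2 hpr hρ hρc hsu hsq hG fun t p' r ht hr => ?_
    obtain ⟨p1, r1, h1, h2⟩ := hg _ p' r ((m1 _ _).2 ht) hr
    exact ⟨p1, r1, (m1 _ _).1 h1, h2⟩
  · refine pv hX3 hBD hQI1 hQI2 hQI3 hQRN hBL hBJ hBC hBK hBO hZR hZW hZK hLL hA hB hξ
      hq hqt hE3 hpr hρ hρc hsu hsq hG fun t p' r ht hr => ?_
    obtain ⟨p1, r1, h1, h2⟩ := hg _ p' r ((m2 _ _).2 ht) hr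
    exact ⟨p1, r1, (m2 _ _).1 h1, h2⟩

end SE.UZ
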